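import Pool.Agent.TH678.TG.Change2

/-!
# How many strings of an oracle have to be changed such that linear space can be simulated?

An adversary who knows the oracle `O` changes, for all large `n`, at most `g n` of the strings of
length at most `n`; the result is the oracle `A` (`Close g O A`). When can he achieve that linear
space is contained in polynomial time, or in nondeterministic polynomial time, or in some larger time
class, relative to `A`? For almost every oracle `O` this is false for `O` itself.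

`Hit A` is the set of all `x` such that for some `y` with `|y| = |x|` all the strings `x y 1 ^ i`,
`i < |x|`, are in `A`; its complement is in deterministic linear space relative to `A`. The class `C`
is any class of languages (relative to oracles) inside `PSPACE` which contains it (`Between C`), for
instance deterministic or nondeterministic linear space or `PSPACE` itself.

* Polynomial time. If for every `ε > 0` there are infinitely many `n` with `g n ≤ 2 ^ (n ^ ε)` then,
  for almost every `O`, the class `C` is not in `NP/poly` relative to any of the `A`, however the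
  changes depend on `O`. Otherwise every `O` is close to an `A` with `PSPACE ⊆ P`, and to an `A` with
  `PSPACE ⊆ NP` and `PSPACE ⊄ P`.
* The time bounds `2 ^ U k n`, some `k`, of a nice sequence `U`: the number of changes which is
  needed is `2 ^ t⁻¹(n)` for the time bound `t`, for deterministic and for nonuniform
  nondeterministic simulation.
* Time `2 ^ (n ^ δ)` for all `δ > s`, where `0 ≤ s < 1`: possible for every `O`, even
  deterministically and for `PSPACE`, unless `g n ≤ 2 ^ ((log n) ^ a)` infinitely often for some `a`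
  with `a s < 1`; and then impossible for almost every `O`, even nondeterministically.
* With `g n = 2 ^ ((log n) ^ (1 / s))` changes, `0 < s < 1`, the least exponent that can be achieved
  is `s`, for almost every `O`.
-/

set_option autoImplicit false

namespace Pool.Agent.Results.MP_c578c8_lc.ChangedStrings

open Pool.Agent.NPC Pool.Agent.H620R2.Gauge Pool.Agent.TH678.TG Filter MeasureTheory
open Pool.Agent.H628R3.RO (randomOracle)
open Pool.Agent.W900.CH (Close)

theorem result (C : Oracle → Set (List Bool) → Prop) (hC : Between C) (g : ℕ → ℝ) :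
    -- polynomial time
    (((∀ ε : ℝ, 0 < ε → ∃ᶠ n : ℕ in atTop, g n ≤ 2 ^ (n : ℝ) ^ ε) →
      ∀ᵐ O ∂randomOracle, ∀ A, Close g O A → ¬ ∀ L, C A L → WithAdvice (IsNP A) L) ∧
    ((¬ ∀ ε : ℝ, 0 < ε → ∃ᶠ n : ℕ in atTop, g n ≤ 2 ^ (n : ℝ) ^ ε) → ∀ O : Oracle,
      (∃ A, Close g O A ∧ ∀ L, C A L → IsP A L) ∧
      ∃ A, Close g O A ∧ (∀ L, IsPSPACE A L → IsNP A L) ∧ ∃ L, IsPSPACE A L ∧ ¬ IsP A L)) ∧
    -- the general law
    (∀ U : ℕ → ℕ → ℕ, Nice U →
      ((∀ k, ∃ᶠ n : ℕ in atTop, ∃ m : ℕ, 2 ^ U k m ≤ n ∧ g n ≤ 2 ^ m) →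
        ∀ᵐ O ∂randomOracle, ∀ A, Close g O A → ¬ ∀ L, C A L → InA U A L) ∧
      ((¬ ∀ k, ∃ᶠ n : ℕ in atTop, ∃ m : ℕ, 2 ^ U k m ≤ n ∧ g n ≤ 2 ^ m) →
        ∀ O : Oracle, ∃ A, Close g O A ∧ ∀ L, C A L → InD U A L)) ∧
    -- the exponents
    (∀ s : ℝ, 0 ≤ s → s < 1 →
      ((∃ a : ℝ, a * s < 1 ∧ ∃ᶠ n : ℕ in atTop, g n ≤ 2 ^ (Real.logb 2 n) ^ a) →
        ∀ᵐ O ∂randomOracle, ∀ A, Close g O A → ¬ ∀ L, C A L → PowN s A L) ∧
      ((¬ ∃ a : ℝ, a * s < 1 ∧ ∃ᶠ n : ℕ in atTop, g n ≤ 2 ^ (Real.logb 2 n) ^ a) →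
        ∀ O : Oracle, ∃ A, Close g O A ∧ ∀ L, C A L → PowD s A L)) ∧
    -- the least exponent
    (∀ s : ℝ, 0 < s → s < 1 →
      (∀ O : Oracle, ∃ A, Close (fun n => 2 ^ (Real.logb 2 n) ^ (1 / s)) O A ∧
        ∀ L, C A L → PowD s A L) ∧
      ∀ᵐ O ∂randomOracle, ∀ A, Close (fun n => 2 ^ (Real.logb 2 n) ^ (1 / s)) O A →
        ∀ δ < s, ¬ PowA δ A (Hit A)ᶜ) := by
  refine ⟨⟨fun h => ?_, fun h O => ?_⟩, fun U hU => ⟨fun h => ?_, fun h O => ?_⟩,
    fun s hs hs1 => ⟨fun h => ?_, fun h O => ?_⟩, fun s hs hs1 => ⟨fun O => ?_, ae_exact hs hs1⟩⟩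
  · filter_upwards [(change_P g).1 h] with O hO A hA hcon
    exact hO A hA (hcon _ (hC.2 A))
  · obtain ⟨⟨A, h1, h2⟩, h3⟩ := (change_P g).2 h O
    exact ⟨⟨A, h1, fun L hL => h2 L (hC.1 A L hL)⟩, h3⟩
  · filter_upwards [(change_union hU g).1 h] with O hO A hA hcon
    exact hO A hA (hcon _ (hC.2 A))
  · obtain ⟨A, h1, h2⟩ := (change_union hU g).2 h O
    exact ⟨A, h1, fun L hL => h2 L (hC.1 A L hL)⟩
  · filter_upwards [(change_pow hs hs1 g).1 h] with O hO A hA hcon
    exact hO A hA fun δ hδ => (hcon _ (hC.2 A)).powA hδ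
  · obtain ⟨A, h1, h2⟩ := (change_pow hs hs1 g).2 h O
    exact ⟨A, h1, fun L hL => h2 L (hC.1 A L hL)⟩
  · obtain ⟨A, h1, h2⟩ := (change_pow hs.le hs1 _).2 (not_GP_self hs) O
    exact ⟨A, h1, fun L hL => h2 L (hC.1 A L hL)⟩

end Pool.Agent.Results.MP_c578c8_lc.ChangedStrings
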