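import Pool.Agent.TH678.TG.Final3

/-!
# How fast can linear space be simulated relative to an oracle? Exact gauges for all time bounds

The question is whether linear space (equivalently polynomial space) can be simulated in
deterministic, respectively nondeterministic, polynomial time. Relative to an oracle `A` we look at
all time bounds between polynomial time and `2 ^ (n ^ s)`, `s < 1`, and determine exactly, in terms
of generalized Hausdorff measures (`Null f`), how many oracles allow a simulation.

`Hit A` is the set of all `x` such that for some `y` with `|y| = |x|` all the strings `x y 1 ^ i`,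
`i < |x|`, are in `A`; its complement is in deterministic linear space relative to `A`. The class `C`
below is any class of languages (relative to oracles) inside `PSPACE` which contains it
(`Between C`), for instance deterministic or nondeterministic linear space or `PSPACE` itself.

* General law. For every nice sequence `U` of exponents (closed under constant factors, at least
  `log n`, at most `n / 4`) and every set `O` of oracles that contains all the oracles relative to
  which `PSPACE` is in deterministic time `2 ^ U k n` for some `k`, and relative to whose members the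
  complement of `Hit A` is in nonuniform nondeterministic time `2 ^ U k n` for some `k`: `O` is
  `f`-null if and only if for every `k` there are infinitely many `N` with `f N ≤ 2 ^ n` for some `n`
  with `2 ^ U k n ≤ log N`. So the critical gauge is `2 ^ t⁻¹(log N)` for the time bound `t`.
* Quasi-polynomial time: `f N ≤ 2 ^ (2 ^ ((log log N) ^ ε))` infinitely often, for all `ε > 0`; the
  same for deterministic and for nondeterministic simulation, and if we require in addition that `NP`
  is not in `coNP/poly`.
* Time `2 ^ (n ^ δ)` for all `δ > s`, where `0 ≤ s < 1`: `f N ≤ 2 ^ ((log log N) ^ a)` infinitely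
  often, for some `a` with `a s < 1`; the same for deterministic and nondeterministic simulation, and
  if we require that the exponent `s` is exact even for nonuniform nondeterministic simulations of
  linear space, and that `NP` is not in `coNP/poly`.
* Time `2 ^ (n ^ s)` for some `s < 1`: `f N ≤ 2 ^ ((log log N) ^ b)` infinitely often, for all
  `b > 1`.
-/

set_option autoImplicit false

namespace Pool.Agent.Results.MP_c578c8_lc.SimulationTimeGauge

open Pool.Agent.NPC Pool.Agent.H620R2.Gauge Pool.Agent.TH678.TG Filter

theorem result (f : ℕ → ℝ) :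
    -- the general law
    (∀ U : ℕ → ℕ → ℕ, Nice U → ∀ O : Set Oracle,
      (∀ A : Oracle, (∀ L, IsPSPACE A L → InD U A L) → A ∈ O) →
      (∀ A ∈ O, InA U A (Hit A)ᶜ) →
      (Null f O ↔ ∀ k, ∃ᶠ N : ℕ in atTop, ∃ n : ℕ, 2 ^ 2 ^ U k n ≤ N ∧ f N ≤ 2 ^ n)) ∧
    -- polynomial space is one of the classes `C`
    Between IsPSPACE ∧
    ∀ C : Oracle → Set (List Bool) → Prop, Between C →
      -- quasi-polynomial time
      (∀ X ∈ ([{A | ∀ L, C A L → InD QP A L}, {A | ∀ L, C A L → InN QP A L},
        {A | (∀ L, C A L → InD QP A L) ∧ ∃ L, IsNP A L ∧ ¬ WithAdvice (IsNP A) Lᶜ}] :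
        List (Set Oracle)),
        (Null f X ↔ ∀ ε : ℝ, 0 < ε → ∃ᶠ N : ℕ in atTop,
          f N ≤ 2 ^ (2 : ℝ) ^ (Real.logb 2 (Real.logb 2 N)) ^ ε)) ∧
      -- the exponents `s`
      (∀ s : ℝ, 0 ≤ s → s < 1 →
        ∀ X ∈ ([{A | ∀ L, C A L → PowD s A L}, {A | ∀ L, C A L → PowN s A L},
          {A | (∀ L, C A L → PowD s A L) ∧ (0 < s → ∀ δ < s, ¬ PowA δ A (Hit A)ᶜ) ∧
            ∃ L, IsNP A L ∧ ¬ WithAdvice (IsNP A) Lᶜ}] : List (Set Oracle)),
          (Null f X ↔ ∃ a : ℝ, a * s < 1 ∧ ∃ᶠ N : ℕ in atTop,
            f N ≤ 2 ^ (Real.logb 2 (Real.logb 2 N)) ^ a)) ∧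
      -- some exponent smaller than one
      (∀ X ∈ ([{A | ∃ s : ℝ, 0 ≤ s ∧ s < 1 ∧ ∀ L, C A L → PowD s A L},
        {A | ∃ s : ℝ, 0 ≤ s ∧ s < 1 ∧ ∀ L, C A L → PowN s A L}] : List (Set Oracle)),
        (Null f X ↔ ∀ b : ℝ, 1 < b → ∃ᶠ N : ℕ in atTop,
          f N ≤ 2 ^ (Real.logb 2 (Real.logb 2 N)) ^ b)) :=
  ⟨fun _ hU O h1 h2 => union_law hU f O h1 fun A hA => by rw [← hit_eq]; exact h2 A hA,
    between_pspace, fun _ hC => ⟨law_QP hC f, fun _ hs hs1 => law_pow hC f hs hs1, law_one hC f⟩⟩

end Pool.Agent.Results.MP_c578c8_lc.SimulationTimeGauge
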