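import Pool.Agent.TH683.AT.Fin

set_option autoImplicit false

/-!
# Memory against alternations and time

Polynomial time is Mathlib's `Turing.TM2ComputableInPolyTime`; polynomial-time oracle algorithms,
algorithms that work in rounds with a memory (`SAlg`) and the random oracle are defined in
`Pool.Agent.H620R2.Gauge.Defs`, alternating quantifiers in `Pool.Agent.TH683.AL.Defs`, and the
classes of this file in `Pool.Agent.TH683.AT.Defs`.

How much time and how many alternations does it take to simulate a computation with a memory of
`s(n)` bits? The well-known simulation (guess some intermediate configurations, check one of the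
pieces, and so on) needs `k` alternations and time `2 ^ O(s/k)`. For almost every oracle it is
optimal, for all memory bounds `s` and all functions `k` and `h` at once: everything that can be
decided with `s(n) + O(log n)` bits of memory can be decided with `k(n)` alternations in time
`2 ^ O(h(n)) n ^ O(1)` if and only if `s(n) = O((k(n) + 1) (h(n) + log n))`, and a majority quantifier
in front of the alternating ones and polynomial advice do not change this.

For linear space, and `k = 1` or `k` constant: the time must be exponential in a linear function;
in polynomial time one needs at least `n / log n` alternations, and this many are enough.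
-/

namespace Pool.Agent.Results.MP_c578c8_lc.SpaceAlternationTime

open Pool.Agent.H620R2.Gauge Pool.Agent.TH683.AT

theorem result : ∀ᵐ A ∂ranO, ∀ s k h : ℕ → ℕ, Nice s →
    List.TFAE [∀ L, IsMem A s L → IsAltTime A k h L,
      ∀ L, IsMem A s L → IsMajAltTimePoly A k h L,
      ∃ c : ℕ, ∀ n, s n ≤ c * ((k n + 1) * (h n + Nat.log 2 n + 1))] := by
  filter_upwards [ae_lowT] with A hA s k h hs
  tfae_have 1 → 2 := fun h1 L hL => (h1 L hL).maj
  tfae_have 2 → 3 := fun h1 => hA s hs k h (h1 _ (isMem_parS A hs))
  tfae_have 3 → 1 := by
    intro hc L hL
    obtain ⟨S, hS⟩ := hs.poly
    exact isAltTime_of_mem hS hL hc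
  tfae_finish

end Pool.Agent.Results.MP_c578c8_lc.SpaceAlternationTime
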