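import Pool.Agent.W901.NU.PSp

/-!
# Linear space versus polynomial time and the prediction of answers: the square-root law

Polynomial time (`InP`) is Mathlib's `Turing.TM2ComputableInPolyTime`, for functions on bit strings,
and polynomial space (`InPSPACE`) is measured on the same machines; `PSPACEHard` is hardness for
polynomial space under polynomial-time many-one reductions. By the problem file, linear space is
contained in `P` iff `PSPACE` is.

A set `A` is `(δ, ε)`-predictable (`Predictable δ ε A`) if a polynomial-time algorithm which asks
`O(log n)` questions to some oracle (an arbitrary set) computes, for every nonempty list of `m`
questions of length at most `m ^ ε` about membership in `A`, predictions for a nonempty subset of `s`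
of the questions such that the number of right predictions and the number of wrong predictions differ
by at least `m ^ δ * √ s` (random guessing has standard deviation `√ s`). It is fully
`δ`-predictable (`FullyPredictable δ A`) if there are such predictions for all questions and all lists
of questions of any length.

The theorem: for `0 < δ ≤ 1 / 2` and `ε > 0` the following are equivalent.

* `PSPACE ⊆ P` (equivalently, deterministic linear space is contained in `P`).
* Some `PSPACE`-hard set is `(δ, ε)`-predictable.
* All sets in `PSPACE` are fully `δ`-predictable.

For `δ ≤ 0` every set whatsoever is fully `δ`-predictable: the threshold is the square root of the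
number of predictions.

This is the theorem `pspace_law` of the starting file `Pool/Agent/W901/NU/PSp.lean`, which had not
been handed in. Proof: predictions give `P = NP` (the square-root law for `NP`, as `PSPACE`-hard sets
are `NP`-hard); online learning and boosting give short advice strings for the nodes of the
evaluation tree of quantified formulas; an advice string can be tested locally (the value at an inner
node is the conjunction or the disjunction of the values at its two sons), so a right advice string
can be found in polynomial time because `P = NP`.
-/

set_option autoImplicit false

namespace Pool.Agent.Results.MP_c578c8_lc.SquareRootLaw

open Pool.Agent.NPC Pool.Agent.H623R2.PS Pool.Agent.W901.AT Pool.Agent.W901.NU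

/-- **The square-root law for polynomial space.** -/
theorem result (δ ε : ℝ) :
    (0 < δ → δ ≤ 1 / 2 → 0 < ε → List.TFAE
      [∀ L : Set (List Bool), InPSPACE L → InP L,
        ∃ A : Set (List Bool), PSPACEHard A ∧ Predictable δ ε A,
        ∀ A : Set (List Bool), InPSPACE A → FullyPredictable δ A]) ∧
    (δ ≤ 0 → ∀ A : Set (List Bool), FullyPredictable δ A) :=
  pspace_law δ ε

end Pool.Agent.Results.MP_c578c8_lc.SquareRootLaw
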